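import Pool.Agent.H482R3.EA.Stm

set_option autoImplicit false

/-! Project EA, task FR: the word problem of the free group of rank `k`, letters modulo `k`. -/

namespace Pool.Agent.H545R3.EA

open Pool.Agent.H482R3.EA

theorem t_FR (hF : S_FW) (hX : S_XX) : S_FR := by
  intro k hk
  obtain ⟨-, -, h3⟩ := hX k hk
  let g : ℕ → Fin k := fun r => ⟨r % k, Nat.mod_lt r hk⟩
  have hg : Primrec g :=
    Primrec.fin_val_iff.1 (Primrec.nat_mod.comp Primrec.id (Primrec.const k))
  have hmap : Computable (fun y : W ℕ => (y.map (fun a => (g a.1, a.2)) : W (Fin k))) := by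
    refine Primrec.to_comp ?_
    refine Primrec.list_map Primrec.id ?_
    exact ((hg.comp (Primrec.fst.comp Primrec.snd)).pair (Primrec.snd.comp Primrec.snd)).to₂
  have hW := hF (Fin k) inferInstance inferInstance
  obtain ⟨D, hD⟩ := hW
  have key : ∀ y : W ℕ, evF k y =
      ev (FreeGroup.of : Fin k → FreeGroup (Fin k)) (y.map (fun a => (g a.1, a.2))) := by
    intro y
    unfold evF ev
    rw [List.map_map]
    congr 1
    refine List.map_congr_left ?_
    intro a _
    have h4 := h3 (g a.1)
    have h5 : (((g a.1 : Fin k) : ℕ) : ℤ) = ((a.1 % k : ℕ) : ℤ) := rfl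
    rw [h5] at h4
    simp only [Function.comp_apply]
    rw [h4]
  have h1 : ComputablePred (fun y : W ℕ =>
      ev (FreeGroup.of : Fin k → FreeGroup (Fin k)) (y.map (fun a => (g a.1, a.2))) = 1) :=
    ⟨fun y => D _, hD.comp hmap⟩
  refine h1.of_eq ?_
  intro y
  rw [key y]

end Pool.Agent.H545R3.EA
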